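import Pool.Agent.Lib_helper50.WMP.Circle

open MeasureTheory Set
open scoped ENNReal

namespace Pool.Agent.Results.MP_30e1ee_an.WMPFails

/-- For `1 < p ≤ 2 ≤ q < ∞` with `(p, q) ≠ (2, 2)`, and for both scalar fields, the pair
`(L_p[0,1], L_q[0,1])` does **not** have the weak maximizing property. -/
theorem result (𝕂 : Type*) [RCLike 𝕂] (p q : ℝ≥0∞) [Fact (1 ≤ p)] [Fact (1 ≤ q)]
    (h1p : 1 < p) (hp2 : p ≤ 2) (h2q : 2 ≤ q) (hq : q < ∞) (hpq : ¬ (p = 2 ∧ q = 2)) :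
    ¬ WMPProj.WeakMaximizingProperty 𝕂
        (Lp 𝕂 p (volume.restrict (Icc (0 : ℝ) 1)))
        (Lp 𝕂 q (volume.restrict (Icc (0 : ℝ) 1))) :=
  WMPProj.sys_unitInterval.not_wmp 𝕂 p q h1p hp2 h2q hq.ne hpq

end Pool.Agent.Results.MP_30e1ee_an.WMPFails
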